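import Pool.Agent.H579Z.Area.Main

set_option autoImplicit false

/-! The decision version of max-min area triangulation of planar point sets is NP-hard under
polynomial-time many-one reductions (all instances produced are non-collinear). -/

namespace Pool.Agent.Results.MP_f9630a_lc.AMaxMinAreaNPHard

open Pool.Agent.NPC Pool.Agent.H579Z.Area

theorem result (L : Set (List Bool)) (hL : InNP L) :
    ∃ f : List Bool → List (ℚ × ℚ) × ℚ, PolyTime (fun x => bits (f x)) ∧
      ∀ x, ¬ Collinear ℝ (pts (f x).1) ∧ (x ∈ L ↔ MaxMinArea (f x)) :=
  main L hL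

end Pool.Agent.Results.MP_f9630a_lc.AMaxMinAreaNPHard
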